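import Pool.Agent.Helper72.LGI.Defs
import Pool.Agent.Helper72.LGS.Count

/-!
# The sum over an interval of normal subgroups
-/

set_option autoImplicit false

namespace Pool.Agent.Helper72.LGI

open Subgroup Finset Pool.Agent.Helper72.LG Pool.Agent.Helper72.LGS

section

variable {G : Type*} [Group G]

/-- the automorphism of a section induced by conjugation -/
noncomputable def secAut (L C : Subgroup G) [L.Normal] [C.Normal] (g : G) :
    MulAut (C ⧸ L.subgroupOf C) :=
  QuotientGroup.congr (L.subgroupOf C) (L.subgroupOf C) (MulAut.conjNormal g) (by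
    have hL : L.Normal := inferInstance
    ext x
    rw [Subgroup.mem_map]
    constructor
    · rintro ⟨y, hy, rfl⟩
      exact hL.conj_mem _ hy g
    · intro hx
      refine ⟨MulAut.conjNormal g⁻¹ x, hL.conj_mem _ hx g⁻¹, ?_⟩
      change MulAut.conjNormal g (MulAut.conjNormal g⁻¹ x) = x
      ext
      simp)

lemma secAut_mk (L C : Subgroup G) [L.Normal] [C.Normal] (g : G) (x : C) :
    secAut L C g (QuotientGroup.mk' (L.subgroupOf C) x) =
      QuotientGroup.mk' (L.subgroupOf C) (MulAut.conjNormal g x) := rfl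

/-- the image of a subgroup in a section -/
def simg (L C : Subgroup G) [L.Normal] (N : Subgroup G) : Subgroup (C ⧸ L.subgroupOf C) :=
  (N.subgroupOf C).map (QuotientGroup.mk' (L.subgroupOf C))

lemma simg_le_iff {L C N K : Subgroup G} [L.Normal] (hLK : L ≤ K) (hNC : N ≤ C) :
    simg L C N ≤ simg L C K ↔ N ≤ K := by
  have hD : L.subgroupOf C ≤ K.subgroupOf C := Subgroup.subgroupOf_mono C hLK
  unfold simg
  rw [map_le_iff hD]
  constructor
  · intro h x hx
    exact h (x := ⟨x, hNC hx⟩) hx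
  · intro h
    exact Subgroup.subgroupOf_mono C h

lemma simg_inj {L C N N' : Subgroup G} [L.Normal] (hN : L ≤ N) (hNC : N ≤ C) (hN' : L ≤ N')
    (hNC' : N' ≤ C) (h : simg L C N = simg L C N') : N = N' :=
  le_antisymm ((simg_le_iff hN' hNC).1 h.le) ((simg_le_iff hN hNC').1 h.ge)

lemma card_simg [Finite G] {L C N : Subgroup G} [L.Normal] (hN : L ≤ N) (hNC : N ≤ C) :
    Nat.card N = Nat.card L * Nat.card (simg L C N) := by
  have hD : L.subgroupOf C ≤ N.subgroupOf C := Subgroup.subgroupOf_mono C hN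
  have h1 := card_eq_map hD
  have h2 : Nat.card (N.subgroupOf C) = Nat.card N :=
    Nat.card_congr (Subgroup.subgroupOfEquivOfLe hNC).toEquiv
  have h3 : Nat.card (L.subgroupOf C) = Nat.card L :=
    Nat.card_congr (Subgroup.subgroupOfEquivOfLe (hN.trans hNC)).toEquiv
  rw [h2, h3] at h1
  exact h1

lemma map_simg {L C N : Subgroup G} [L.Normal] [C.Normal] [N.Normal] (g : G) :
    (simg L C N).map (secAut L C g).toMonoidHom = simg L C N := by
  have hN : N.Normal := inferInstance
  ext y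
  simp only [simg, Subgroup.mem_map]
  constructor
  · rintro ⟨_, ⟨x, hx, rfl⟩, rfl⟩
    refine ⟨MulAut.conjNormal g x, ?_, rfl⟩
    rw [Subgroup.mem_subgroupOf] at hx ⊢
    rw [MulAut.conjNormal_apply]
    exact hN.conj_mem _ hx g
  · rintro ⟨x, hx, rfl⟩
    refine ⟨QuotientGroup.mk' (L.subgroupOf C) (MulAut.conjNormal g⁻¹ x),
      ⟨MulAut.conjNormal g⁻¹ x, ?_, rfl⟩, ?_⟩
    · rw [Subgroup.mem_subgroupOf] at hx ⊢
      rw [MulAut.conjNormal_apply]
      exact hN.conj_mem _ hx g⁻¹
    · change secAut L C g _ = _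
      rw [secAut_mk]
      congr 1
      ext
      simp

/-- the subgroup over a subgroup of a section -/
def spre (L C : Subgroup G) [L.Normal] (H : Subgroup (C ⧸ L.subgroupOf C)) : Subgroup G :=
  (H.comap (QuotientGroup.mk' (L.subgroupOf C))).map C.subtype

lemma mem_spre {L C : Subgroup G} [L.Normal] {H : Subgroup (C ⧸ L.subgroupOf C)} {x : G} :
    x ∈ spre L C H ↔ ∃ h : x ∈ C, QuotientGroup.mk' (L.subgroupOf C) ⟨x, h⟩ ∈ H := by
  simp only [spre, Subgroup.mem_map, Subgroup.mem_comap, Subgroup.coe_subtype]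
  constructor
  · rintro ⟨y, hy, rfl⟩
    exact ⟨y.2, hy⟩
  · rintro ⟨h, hx⟩
    exact ⟨⟨x, h⟩, hx, rfl⟩

lemma spre_le {L C : Subgroup G} [L.Normal] (H : Subgroup (C ⧸ L.subgroupOf C)) :
    spre L C H ≤ C := by
  intro x hx
  exact (mem_spre.1 hx).1

lemma le_spre {L C : Subgroup G} [L.Normal] (hLC : L ≤ C) (H : Subgroup (C ⧸ L.subgroupOf C)) :
    L ≤ spre L C H := by
  intro x hx
  refine mem_spre.2 ⟨hLC hx, ?_⟩
  have : QuotientGroup.mk' (L.subgroupOf C) ⟨x, hLC hx⟩ = 1 := by
    rw [← MonoidHom.mem_ker, QuotientGroup.ker_mk']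
    exact hx
  rw [this]
  exact H.one_mem

lemma simg_spre {L C : Subgroup G} [L.Normal] (H : Subgroup (C ⧸ L.subgroupOf C)) :
    simg L C (spre L C H) = H := by
  ext y
  simp only [simg, Subgroup.mem_map]
  constructor
  · rintro ⟨x, hx, rfl⟩
    obtain ⟨h, hx'⟩ := mem_spre.1 (Subgroup.mem_subgroupOf.1 hx)
    exact hx'
  · intro hy
    obtain ⟨x, rfl⟩ := QuotientGroup.mk'_surjective _ y
    exact ⟨x, Subgroup.mem_subgroupOf.2 (mem_spre.2 ⟨x.2, hy⟩), rfl⟩

lemma spre_normal {L C : Subgroup G} [L.Normal] [C.Normal] {ι : Type*} (g : ι → G)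
    (hg : Subgroup.closure (Set.range g) = ⊤) (H : Subgroup (C ⧸ L.subgroupOf C))
    (hH : ∀ j, H.map (secAut L C (g j)).toMonoidHom = H) : (spre L C H).Normal := by
  have hC : C.Normal := inferInstance
  have key : ∀ (j : ι) (x : G), x ∈ spre L C H ↔ g j * x * (g j)⁻¹ ∈ spre L C H := by
    intro j x
    rw [mem_spre, mem_spre]
    constructor
    · rintro ⟨h, hx⟩
      refine ⟨hC.conj_mem x h (g j), ?_⟩
      have h1 : secAut L C (g j) (QuotientGroup.mk' (L.subgroupOf C) ⟨x, h⟩) ∈ H := by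
        rw [← hH j]
        exact ⟨_, hx, rfl⟩
      rw [secAut_mk] at h1
      exact h1
    · rintro ⟨h, hx⟩
      have hxC : x ∈ C := by
        have := hC.conj_mem _ h (g j)⁻¹
        simpa [mul_assoc] using this
      refine ⟨hxC, ?_⟩
      have h1 : QuotientGroup.mk' (L.subgroupOf C) ⟨g j * x * (g j)⁻¹, h⟩ ∈
          H.map (secAut L C (g j)).toMonoidHom := by
        rw [hH j]
        exact hx
      obtain ⟨y, hy, hyx⟩ := h1
      have h2 : secAut L C (g j) y =
          secAut L C (g j) (QuotientGroup.mk' (L.subgroupOf C) ⟨x, hxC⟩) := hyx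
      rw [← (secAut L C (g j)).injective h2]
      exact hy
  rw [← Subgroup.normalizer_eq_top_iff, eq_top_iff, ← hg, Subgroup.closure_le]
  rintro _ ⟨j, rfl⟩
  exact Subgroup.mem_normalizer_iff.2 (key j)

end

/-- the sum over an interval of normal subgroups is the value of the section with operators -/
theorem interval_value {G : Type*} [Group G] [Finite G] (S : Finset ℕ) (K : ℕ → Subgroup G)
    (Kq : Subgroup G) [DecidablePred fun N : Subgroup G => N ≤ Kq]
    [∀ (p : ℕ) (N : Subgroup G), Decidable (N ≤ K p)] {h : ℕ} (g : Fin h → G)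
    (hg : Subgroup.closure (Set.range g) = ⊤) (L C : Subgroup G) [L.Normal] [C.Normal] (hLC : L ≤ C) :
    ∃ (a : Fin h → MulAut (C ⧸ L.subgroupOf C)) (K' : ℕ → Subgroup (C ⧸ L.subgroupOf C))
      (b : ℕ → Bool) (L' : Subgroup (C ⧸ L.subgroupOf C)) (bL : Bool),
      ∑ N ∈ (ival L C).filter (fun N => N ≤ Kq), Nat.card N * ∏ p ∈ S, (p + if N ≤ K p then 1 else 0) =
        VO (C ⧸ L.subgroupOf C) S a (Nat.card L) K' b L' bL := by
  classical
  refine ⟨fun j => secAut L C (g j), fun p => simg L C (K p), fun p => decide (L ≤ K p),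
    simg L C Kq, decide (L ≤ Kq), ?_⟩
  unfold VO
  by_cases hL : L ≤ Kq
  swap
  · rw [if_neg (by simpa using hL)]
    refine Finset.sum_eq_zero fun N hN => ?_
    exfalso
    rw [mem_filter, ival, mem_filter] at hN
    exact hL (hN.1.2.1.trans hN.2)
  rw [if_pos (by simpa using hL)]
  refine Finset.sum_nbij' (fun N => simg L C N) (fun H => spre L C H) ?_ ?_ ?_ ?_ ?_
  · intro N hN
    rw [mem_filter, ival, mem_filter, mem_nsg] at hN
    obtain ⟨⟨hNn, hLN, hNC⟩, hNK⟩ := hN
    simp only [inv, Set.Finite.mem_toFinset, Set.mem_ofPred_eq]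
    exact ⟨fun j => map_simg (g j), (simg_le_iff hL hNC).2 hNK⟩
  · intro H hH
    simp only [inv, Set.Finite.mem_toFinset, Set.mem_ofPred_eq] at hH
    rw [mem_filter, ival, mem_filter, mem_nsg]
    refine ⟨⟨spre_normal g hg H hH.1, le_spre hLC H, spre_le H⟩, ?_⟩
    rw [← simg_le_iff (C := C) hL (spre_le H), simg_spre]
    exact hH.2
  · intro N hN
    rw [mem_filter, ival, mem_filter, mem_nsg] at hN
    obtain ⟨⟨hNn, hLN, hNC⟩, hNK⟩ := hN
    exact simg_inj (le_spre hLC _) (spre_le _) hLN hNC (simg_spre _)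
  · intro H hH
    exact simg_spre H
  · intro N hN
    rw [mem_filter, ival, mem_filter, mem_nsg] at hN
    obtain ⟨⟨hNn, hLN, hNC⟩, hNK⟩ := hN
    rw [card_simg hLN hNC]
    congr 1
    refine Finset.prod_congr rfl fun p _ => ?_
    have hiff : N ≤ K p ↔ (decide (L ≤ K p) = true ∧ simg L C N ≤ simg L C (K p)) := by
      constructor
      · intro h
        have hLK : L ≤ K p := hLN.trans h
        exact ⟨by simpa using hLK, (simg_le_iff hLK hNC).2 h⟩
      · rintro ⟨h1, h2⟩
        have hLK : L ≤ K p := by simpa using h1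
        exact (simg_le_iff hLK hNC).1 h2
    by_cases hc : N ≤ K p
    · rw [if_pos hc, if_pos (hiff.1 hc)]
    · rw [if_neg hc, if_neg (fun h => hc (hiff.2 h))]

end Pool.Agent.Helper72.LGI
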